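import Pool.Agent.J6H49.SY.Z2

/-!
# Symmetrization of a circuit (module S2-UP of helper49's project)

One copy of the circuit for every element of the group `(Z/2) ^ r`, and an output gate that is true
if all the copies are true.  Adapted from `Pool/Agent/J6H78/SY/Up.lean` (helper78).
-/

set_option autoImplicit false

namespace Pool.Agent.J6H93.S2.Up

open Pool.Agent.Y600.Circ (Circuit)
open Pool.Agent.J6H49.SY.Z2

theorem eval_eq' {B D L : Type} (C : Circuit B D L) (x : B → Bool) (g : C.Gate) :
    C.eval x g = C.fn g ((C.read g).map x) ((C.wires g).map fun e => (e.1, C.eval x e.2)) := by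
  rw [Circuit.eval]
  congr 1
  exact Multiset.attach_map_val' (C.wires g) fun e => (e.1, C.eval x e.2)

variable {r m : ℕ} {L : Type}

/-- the group -/
abbrev Gp (r : ℕ) : Type := Fin r → Bool

/-- the addition of `γ`, a permutation of the group -/
def ad (γ : Gp r) : Equiv.Perm (Gp r) where
  toFun δ := fun i => γ i ^^ δ i
  invFun δ := fun i => γ i ^^ δ i
  left_inv δ := by
    funext i
    show (γ i ^^ (γ i ^^ δ i)) = δ i
    cases γ i <;> cases δ i <;> rfl
  right_inv δ := by
    funext i
    show (γ i ^^ (γ i ^^ δ i)) = δ i
    cases γ i <;> cases δ i <;> rfl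

theorem mc_ad (γ δ : Gp r) (c : Clause (Fin r) m) : mc (ad γ δ) c = mc γ (mc δ c) := by
  funext k
  show (mv (ad γ δ) (c k).1, (c k).2) = (mv γ (mv δ (c k).1), (c k).2)
  congr 1
  rcases (c k).1 with ⟨i, b⟩ | j
  · show (Sum.inl (i, b ^^ (γ i ^^ δ i)) : Vr (Fin r) m) = Sum.inl (i, (b ^^ δ i) ^^ γ i)
    congr 2
    cases γ i <;> cases δ i <;> cases b <;> rfl
  · rfl

theorem mc_zero (c : Clause (Fin r) m) : mc (fun _ => false) c = c := by
  funext k
  show (mv (fun _ => false) (c k).1, (c k).2) = c k
  have h : mv (fun _ => false) (c k).1 = (c k).1 := by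
    rcases (c k).1 with ⟨i, b⟩ | j
    · show (Sum.inl (i, b ^^ false) : Vr (Fin r) m) = Sum.inl (i, b)
      congr 2
      cases b <;> rfl
    · rfl
  rw [h]

theorem act_zero (x : Clause (Fin r) m → Bool) : act (fun _ => false) x = x := by
  funext c
  show x (mc (fun _ => false) c) = x c
  rw [mc_zero]

/-- remove the label type `Option` -/
def strip (p : Option L × Bool) : Option (L × Bool) := p.1.map fun l => (l, p.2)

/-- the rank of the gates of the symmetrized circuit -/
def rk (C : Circuit (Clause (Fin r) m) Bool L) : Option (Gp r × C.Gate) → ℕ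
  | none => C.rank C.out + 1
  | some p => C.rank p.2

/-- the bits read by the gates of the symmetrized circuit -/
def rd (C : Circuit (Clause (Fin r) m) Bool L) :
    Option (Gp r × C.Gate) → Option (Clause (Fin r) m)
  | none => none
  | some p => (C.read p.2).map (mc p.1)

/-- the wires of the symmetrized circuit -/
def wr (C : Circuit (Clause (Fin r) m) Bool L) :
    Option (Gp r × C.Gate) → Multiset (Option L × Option (Gp r × C.Gate))
  | none => (Finset.univ : Finset (Gp r)).val.map fun δ => (none, some (δ, C.out))
  | some p => (C.wires p.2).map fun e => (some e.1, some (p.1, e.2))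

/-- the functions of the gates of the symmetrized circuit -/
def fu (C : Circuit (Clause (Fin r) m) Bool L) :
    Option (Gp r × C.Gate) → Option Bool → Multiset (Option L × Bool) → Bool
  | none => fun _ M => decide (∀ p ∈ M, p.2 = true)
  | some p => fun b M => C.fn p.2 b (M.filterMap strip)

/-- the symmetrized circuit -/
def symm (C : Circuit (Clause (Fin r) m) Bool L) :
    Circuit (Clause (Fin r) m) Bool (Option L) where
  Gate := Option (Gp r × C.Gate)
  finite := by
    have := C.finite
    infer_instance
  rank := rk C
  read := rd C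
  wires := wr C
  rank_lt := by
    rintro (_ | ⟨δ, g⟩) e he
    · obtain ⟨δ, -, rfl⟩ := Multiset.mem_map.1 he
      exact Nat.lt_succ_self _
    · obtain ⟨e', he', rfl⟩ := Multiset.mem_map.1 he
      exact C.rank_lt g e' he'
  fn := fu C
  out := none

theorem filterMap_strip (M : Multiset (L × Bool)) :
    (M.map fun e => ((some e.1 : Option L), e.2)).filterMap strip = M := by
  rw [Multiset.filterMap_map]
  have h : (strip ∘ fun e : L × Bool => ((some e.1 : Option L), e.2)) = some := by
    funext e
    rfl
  rw [h, Multiset.filterMap_some]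

theorem eval_some (C : Circuit (Clause (Fin r) m) Bool L) (x : Clause (Fin r) m → Bool)
    (δ : Gp r) : ∀ (k : ℕ) (g : C.Gate), C.rank g = k →
      (symm C).eval x (some (δ, g)) = C.eval (act δ x) g := by
  intro k
  induction k using Nat.strong_induction_on with
  | _ k ih =>
    intro g hg
    rw [eval_eq', eval_eq' C]
    change C.fn g (((C.read g).map (mc δ)).map x)
      ((((C.wires g).map fun e => ((some e.1 : Option L), (some (δ, e.2) :
        Option (Gp r × C.Gate)))).map fun e => (e.1, (symm C).eval x e.2)).filterMap strip) = _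
    have h1 : ((C.read g).map (mc δ)).map x = (C.read g).map (act δ x) := by
      rw [Option.map_map]
      rfl
    have h2 : (((C.wires g).map fun e => ((some e.1 : Option L), (some (δ, e.2) :
        Option (Gp r × C.Gate)))).map fun e => (e.1, (symm C).eval x e.2)) =
        (((C.wires g).map fun e => (e.1, C.eval (act δ x) e.2)).map
          fun e => ((some e.1 : Option L), e.2)) := by
      rw [Multiset.map_map, Multiset.map_map]
      refine Multiset.map_congr rfl (fun e he => ?_)
      have h3 := ih (C.rank e.2) (hg ▸ C.rank_lt g e he) e.2 rfl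
      exact Prod.ext rfl h3
    rw [h1, h2, filterMap_strip]

theorem output_eq (C : Circuit (Clause (Fin r) m) Bool L) (x : Clause (Fin r) m → Bool) :
    (symm C).output x = decide (∀ δ : Gp r, C.output (act δ x) = true) := by
  change (symm C).eval x none = _
  rw [eval_eq']
  change decide (∀ p ∈ (((Finset.univ : Finset (Gp r)).val.map
    fun δ => ((none : Option L), (some (δ, C.out) : Option (Gp r × C.Gate)))).map
      fun e => (e.1, (symm C).eval x e.2)), p.2 = true) = _
  congr 1
  apply propext
  constructor
  · intro h δ
    have h1 := h (none, (symm C).eval x (some (δ, C.out)))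
      (Multiset.mem_map.2 ⟨(none, some (δ, C.out)), Multiset.mem_map.2
        ⟨δ, Finset.mem_univ δ, rfl⟩, rfl⟩)
    change (symm C).eval x (some (δ, C.out)) = true at h1
    rw [eval_some C x δ _ C.out rfl] at h1
    exact h1
  · intro h p hp
    obtain ⟨e, he, rfl⟩ := Multiset.mem_map.1 hp
    obtain ⟨δ, -, rfl⟩ := Multiset.mem_map.1 he
    change (symm C).eval x (some (δ, C.out)) = true
    rw [eval_some C x δ _ C.out rfl]
    exact h δ

theorem sat_act {x : Clause (Fin r) m → Bool} (h : Sat x) (δ : Gp r) : Sat (act δ x) := by
  obtain ⟨a, ha⟩ := h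
  refine ⟨fun w => a (mv δ w), fun c hc => ?_⟩
  obtain ⟨k, hk⟩ := ha (mc δ c) hc
  exact ⟨k, hk⟩

/-- the permutation of the gates -/
def prm (C : Circuit (Clause (Fin r) m) Bool L) (γ : Gp r) : Equiv.Perm (symm C).Gate :=
  Equiv.optionCongr ((ad γ).prodCongr (Equiv.refl C.Gate))

theorem prm_some (C : Circuit (Clause (Fin r) m) Bool L) (γ δ : Gp r) (g : C.Gate) :
    prm C γ (some (δ, g)) = some (ad γ δ, g) := rfl

theorem prm_none (C : Circuit (Clause (Fin r) m) Bool L) (γ : Gp r) :
    prm C γ none = none := rfl

theorem main : S_UP3 := by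
  intro r m L C hC
  refine ⟨symm C, ?_, ?_, ?_⟩
  · intro γ
    refine ⟨prm C γ, ?_, ?_, ?_, rfl⟩
    · rintro (_ | ⟨δ, g⟩)
      · rfl
      · rw [prm_some]
        change (C.read g).map (mc (ad γ δ)) = ((C.read g).map (mc δ)).map (mc γ)
        rw [Option.map_map]
        congr 1
        funext c
        exact mc_ad γ δ c
    · rintro (_ | ⟨δ, g⟩)
      · rw [prm_none]
        change (Finset.univ : Finset (Gp r)).val.map
            (fun δ => ((none : Option L), (some (δ, C.out) : Option (Gp r × C.Gate)))) =
          ((Finset.univ : Finset (Gp r)).val.map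
            (fun δ => ((none : Option L), (some (δ, C.out) : Option (Gp r × C.Gate))))).map
            fun e => (e.1, prm C γ e.2)
        rw [Multiset.map_map]
        have h1 : (Finset.univ : Finset (Gp r)).val.map (fun δ => ad γ δ) =
            (Finset.univ : Finset (Gp r)).val := by
          have h2 := Finset.map_univ_equiv (ad γ)
          have h3 := congrArg Finset.val h2
          rw [Finset.map_val] at h3
          exact h3
        conv_lhs => rw [← h1]
        rw [Multiset.map_map]
        rfl
      · rw [prm_some]
        change (C.wires g).map (fun e => ((some e.1 : Option L),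
            (some (ad γ δ, e.2) : Option (Gp r × C.Gate)))) =
          ((C.wires g).map (fun e => ((some e.1 : Option L),
            (some (δ, e.2) : Option (Gp r × C.Gate))))).map fun e => (e.1, prm C γ e.2)
        rw [Multiset.map_map]
        rfl
    · rintro (_ | ⟨δ, g⟩)
      · rfl
      · rfl
  · intro x
    rw [output_eq, Set.mem_singleton_iff, decide_eq_true_iff]
    constructor
    · intro h
      have h1 := (hC (act (fun _ => false) x)).1 (h fun _ => false)
      rwa [act_zero] at h1
    · intro h δ
      exact (hC (act δ x)).2 (sat_act h δ)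
  · have hs : ∀ {B D L' : Type} (C : Circuit B D L'), C.size = Nat.card C.Gate :=
      fun C => (@Nat.card_eq_fintype_card _ C.finite).symm
    have hf : Finite C.Gate := @Finite.of_fintype _ C.finite
    rw [hs, hs]
    have e1 : Nat.card (symm C).Gate = Nat.card (Option (Gp r × C.Gate)) := rfl
    rw [e1, Finite.card_option, Nat.card_prod, Nat.card_fun, Nat.card_eq_fintype_card (α := Bool),
      Fintype.card_bool, Nat.card_eq_fintype_card (α := Fin r), Fintype.card_fin]

end Pool.Agent.J6H93.S2.Up
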